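import Mathlib

set_option autoImplicit false

namespace Pool.Agent.Results.MP_558e64_nt.Full

open Finset

theorem unit_of {p i : ℕ} (hp : p.Prime) (h0 : 0 < i) (hi : i < p) : IsUnit (i : ZMod (p ^ 2)) :=
  (ZMod.isUnit_iff_coprime _ _).2
    (Nat.Coprime.pow_right 2 ((Nat.coprime_comm.1 ((Nat.Prime.coprime_iff_not_dvd hp).2
      (Nat.not_dvd_of_pos_of_lt h0 hi)))))

theorem eps_sq (p : ℕ) : (p : ZMod (p ^ 2)) ^ 2 = 0 := by
  rw [← Nat.cast_pow, ZMod.natCast_self]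

theorem AB {p : ℕ} (hp : p.Prime) (i : ℕ) (hi : i < p) :
    (((p - 1).choose i : ℕ) : ZMod (p ^ 2)) * ((p + i).choose i : ℕ) = (-1) ^ i := by
  induction i with
  | zero => simp
  | succ i ih =>
    have ih := ih (by omega)
    have hu := unit_of hp (Nat.succ_pos i) hi
    have h1 := congrArg (Nat.cast : ℕ → ZMod (p ^ 2)) (Nat.choose_succ_right_eq (p - 1) i)
    have h2 := congrArg (Nat.cast : ℕ → ZMod (p ^ 2)) (Nat.add_one_mul_choose_eq (p + i) i)
    have h3 : ((p - 1 - i : ℕ) : ZMod (p ^ 2)) = p - 1 - i := by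
      rw [Nat.cast_sub (by omega), Nat.cast_sub (by omega)]; simp
    push_cast at h1 h2 hu
    rw [h3] at h1
    apply (hu.mul hu).mul_left_cancel
    have e := eps_sq p
    rw [← add_assoc]
    linear_combination (((p + i + 1).choose (i + 1) : ℕ) * ((i : ZMod (p ^ 2)) + 1)) * h1
      - (((p - 1).choose i : ℕ) * ((p : ZMod (p ^ 2)) - 1 - i)) * h2
      + (((p : ZMod (p ^ 2)) - 1 - i) * (p + i + 1)) * ih + (-1) ^ i * e

/-- the quotient of the `j`-th term by `p ^ 3` -/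
def t (p j : ℕ) : ℕ := (p.choose j / p) * (p - 1).choose j * ((p + j - 1).choose j / p) ^ 2

theorem term {p j : ℕ} (hp : p.Prime) (h0 : 0 < j) (hj : j < p) :
    p.choose j * (p - 1).choose j * (p + j - 1).choose j ^ 2 = p ^ 3 * t p j ∧
      (j : ZMod (p ^ 2)) ^ 4 * t p j = p - j := by
  obtain ⟨i, rfl⟩ : ∃ i, j = i + 1 := ⟨j - 1, by omega⟩
  have hc : Nat.Coprime p (i + 1) :=
    (Nat.Prime.coprime_iff_not_dvd hp).2 (Nat.not_dvd_of_pos_of_lt h0 hj)
  have e1 : p * (p - 1).choose i = p.choose (i + 1) * (i + 1) := by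
    have := Nat.add_one_mul_choose_eq (p - 1) i
    rwa [show p - 1 + 1 = p by omega] at this
  have e2 : (p + i).choose (i + 1) * (i + 1) = p * (p + i).choose i := by
    rw [Nat.choose_succ_right_eq, show p + i - i = p by omega, mul_comm]
  obtain ⟨u, hu⟩ : p ∣ p.choose (i + 1) := hc.dvd_of_dvd_mul_right ⟨_, e1.symm⟩
  obtain ⟨v, hv⟩ : p ∣ (p + i).choose (i + 1) := hc.dvd_of_dvd_mul_right ⟨_, e2⟩
  have hp0 := hp.pos
  have ht : t p (i + 1) = u * (p - 1).choose (i + 1) * v ^ 2 := by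
    unfold t
    rw [show p + (i + 1) - 1 = p + i by omega, hu, hv, Nat.mul_div_cancel_left _ hp0,
      Nat.mul_div_cancel_left _ hp0]
  constructor
  · rw [ht, show p + (i + 1) - 1 = p + i by omega, hu, hv]; ring
  · have f1 : (p - 1).choose i = u * (i + 1) := by
      apply Nat.eq_of_mul_eq_mul_left hp0; rw [e1, hu]; ring
    have f2 : (p + i).choose i = v * (i + 1) := by
      apply Nat.eq_of_mul_eq_mul_left hp0; rw [← e2, hv]; ring
    have h1 := congrArg (Nat.cast : ℕ → ZMod (p ^ 2)) (Nat.choose_succ_right_eq (p - 1) i)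
    have h3 : ((p - 1 - i : ℕ) : ZMod (p ^ 2)) = p - 1 - i := by
      rw [Nat.cast_sub (by omega), Nat.cast_sub (by omega)]; simp
    have ab := AB hp i (by omega)
    have sq : ((-1 : ZMod (p ^ 2)) ^ i) ^ 2 = 1 := by rw [← pow_mul, mul_comm, pow_mul]; simp
    rw [← ab] at sq
    rw [f1] at h1
    rw [f1, f2] at sq
    rw [ht]
    push_cast at h1 sq ⊢
    rw [h3] at h1
    linear_combination ((u : ZMod (p ^ 2)) * v ^ 2 * (i + 1) ^ 3) * h1
      + ((p : ZMod (p ^ 2)) - 1 - i) * sq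

theorem eps_mul {p : ℕ} {a : ℤ} (h : (p : ℤ) ∣ a) : (p : ZMod (p ^ 2)) * (a : ZMod (p ^ 2)) = 0 := by
  obtain ⟨b, rfl⟩ := h
  push_cast
  rw [← mul_assoc, ← sq, eps_sq, zero_mul]

theorem pair {p j : ℕ} (hp : p.Prime) (h5 : 5 ≤ p) (h0 : 0 < j) (hj : j < p) :
    (t p j : ZMod (p ^ 2)) + t p (p - j) = p * (5 * j ^ (p - 5)) := by
  have h1 := (term hp h0 hj).2
  have h2 := (term hp (show 0 < p - j by omega) (by omega)).2
  have hu := unit_of hp h0 hj
  have hu' := unit_of hp (show 0 < p - j by omega) (by omega)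
  rw [Nat.cast_sub hj.le] at h2 hu'
  have e := eps_sq p
  have hf : (p : ℤ) ∣ (j : ℤ) ^ (p - 1) - 1 := by
    haveI := Fact.mk hp
    rw [← ZMod.intCast_zmod_eq_zero_iff_dvd]
    push_cast
    rw [ZMod.pow_card_sub_one_eq_one, sub_self]
    rw [Ne, ZMod.natCast_eq_zero_iff]
    exact Nat.not_dvd_of_pos_of_lt h0 hj
  have h3 := eps_mul hf
  push_cast at h3
  rw [show p - 1 = p - 5 + 4 by omega, pow_add] at h3
  apply ((hu.pow 4).mul (hu'.pow 4)).mul_left_cancel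
  set x := (j : ZMod (p ^ 2))
  set q := (p : ZMod (p ^ 2))
  set y := x ^ (p - 5)
  linear_combination (q - x) ^ 4 * h1 + x ^ 4 * h2 - 5 * (q - x) ^ 4 * h3
    + (10 * x ^ 3 - 20 * x ^ 2 * q + 15 * x * q ^ 2 - 4 * q ^ 3) * e

theorem powsum {p : ℕ} (hp : p.Prime) (h5 : 5 ≤ p) :
    (p : ℤ) ∣ ∑ j ∈ Ico 1 p, 5 * (j : ℤ) ^ (p - 5) := by
  rw [← mul_sum]
  rcases h5.eq_or_lt with h | h
  · subst h; exact Dvd.intro _ rfl
  apply Dvd.dvd.mul_left
  haveI := Fact.mk hp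
  rw [← ZMod.intCast_zmod_eq_zero_iff_dvd]
  push_cast
  have h1 := FiniteField.sum_pow_lt_card_sub_one (K := ZMod p) (p - 5) (by rw [ZMod.card]; omega)
  have h2 : ∑ x : ZMod p, x ^ (p - 5) = ∑ j ∈ range p, (j : ZMod p) ^ (p - 5) := by
    symm
    apply sum_bij (fun (j : ℕ) _ => ((j : ℕ) : ZMod p))
    · intros; exact mem_univ _
    · intro a ha b hb hab
      rw [mem_range] at ha hb
      have := (ZMod.natCast_eq_natCast_iff' a b p).1 hab
      rwa [Nat.mod_eq_of_lt ha, Nat.mod_eq_of_lt hb] at this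
    · intro x _
      exact ⟨x.val, mem_range.2 (ZMod.val_lt x), ZMod.natCast_zmod_val x⟩
    · intros; rfl
  rw [h2, range_eq_Ico, sum_eq_sum_Ico_succ_bot hp.pos] at h1
  simpa [show p - 5 ≠ 0 by omega] using h1

theorem result (p : ℕ) (hp : p.Prime) (h5 : 5 ≤ p) :
    (p : ℤ) ^ 5 ∣ ((∑ j ∈ range p,
      p.choose j * (p - 1).choose j * (p + j - 1).choose j ^ 2 : ℕ) : ℤ) - 1 := by
  rw [range_eq_Ico, sum_eq_sum_Ico_succ_bot hp.pos]
  have h1 : ∑ j ∈ Ico (0 + 1) p, p.choose j * (p - 1).choose j * (p + j - 1).choose j ^ 2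
      = p ^ 3 * ∑ j ∈ Ico 1 p, t p j := by
    rw [mul_sum]
    apply sum_congr rfl
    intro j hj
    rw [mem_Ico] at hj
    exact (term hp hj.1 hj.2).1
  rw [h1]
  have h2 : p ^ 2 ∣ ∑ j ∈ Ico 1 p, t p j := by
    rw [← ZMod.natCast_eq_zero_iff]
    have hu : IsUnit ((2 : ℕ) : ZMod (p ^ 2)) := unit_of hp (by norm_num) (by omega)
    apply hu.mul_left_cancel
    have h3 : ∑ j ∈ Ico 1 p, (t p j : ZMod (p ^ 2)) = ∑ j ∈ Ico 1 p, (t p (p - j) : ZMod (p ^ 2)) := by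
      rw [sum_Ico_reflect (fun j => (t p j : ZMod (p ^ 2))) 1 (show p ≤ p + 1 by omega)]
      simp
    have h4 := eps_mul (powsum hp h5)
    push_cast at h4 ⊢
    rw [two_mul, mul_zero]
    nth_rewrite 2 [h3]
    rw [← sum_add_distrib, ← h4, mul_sum]
    apply sum_congr rfl
    intro j hj
    rw [mem_Ico] at hj
    exact pair hp h5 hj.1 hj.2
  obtain ⟨c, hc⟩ := h2
  rw [hc]
  refine ⟨c, ?_⟩
  simp only [Nat.choose_zero_right]
  push_cast
  ring

end Pool.Agent.Results.MP_558e64_nt.Full
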